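import Mathlib
import Pool.Agent.H2.LmnDefs
import Pool.Agent.H2.LmnMain

open Pool.Agent.H2.Lmn in
theorem Pool.Agent.Results.MP_34e3ac_co.Nonsingular.result (m n : ℕ) (hm : 1 ≤ m) (hn : 1 ≤ n) :
    (A m n).det ≠ 0 ↔
      Odd m ∧ Odd n ∧ ∀ p : ℕ, p.Prime → p ∣ m + n + 1 → min m n < p :=
  main m n hm hn
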